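import Pool.Agent.helper84.NR.Spec

set_option autoImplicit false

namespace Pool.Agent.helper84.NR

open scoped Classical
open Finset

theorem BAD (hPCF : PCF_stmt) (hPCN : PCN_stmt) (hPPL : PPL_stmt) (hPMI : PMI_stmt) :
    BAD_stmt := by
  intro V F M x y hnb hNR
  have hne : ∀ f, ¬ (OnV M.toCyc f x ∧ OnV M.toCyc f y) := by
    rintro f ⟨hx, hy⟩
    exact hNR (hPCF V F M x y f hx hy)
  have hnn : ∀ s, Adj M.toCyc x s → ¬ Adj M.toCyc s y := by
    intro s h1 h2
    exact hNR (hPCN V F M x y s hne h1 h2)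
  refine ⟨hne, hnn, hnb, ?_, ?_⟩
  · intro f k0 k hy h1 h2 hadj
    by_contra hcon
    apply hNR
    apply hPPL V F M x y f k0 k hne hnn hy h1 h2 hadj
    intro k' hk hk' A hA hA'
    by_contra hAk
    exact hcon ⟨k', hk, hk', A, hA, hA', hAk⟩
  · intro f k0 k hy h1 h2 hadj
    by_contra hcon
    apply hNR
    apply hPMI V F M x y f k0 k hne hnn hy h1 h2 hadj
    intro k' hk hk' A hA hA'
    by_contra hAk
    exact hcon ⟨k', hk, hk', A, hA, hA', hAk⟩

end Pool.Agent.helper84.NR
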