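import Pool.Agent.helper24.NR.Spec

/-!
# Project NR (MP_133bfc_co), row QAV: the path `x, v, y`
-/

set_option autoImplicit false

namespace Pool.Agent.NR

open Finset

theorem QAV_edge {V F : Type} {vs : F → Finset V} {es : F → Finset (Sym2 V)} (h : Cfg vs es)
    {u v : V} {k f : F} (hk : s(u, v) ∈ es k) (hu : u ∈ vs f) (hv : v ∈ vs f) :
    s(u, v) ∈ es f := by
  obtain ⟨h1, h2, h3⟩ := h.ends k u v hk
  by_cases hfk : f = k
  · rw [hfk]
    exact hk
  · exact h.meet2 f k hfk u v h3 hu hv h1 h2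

theorem QAV : QAV_stmt := by
  intro V F vs es x y v k l h hxy hno hk hl
  obtain ⟨a1, a2, a3⟩ := h.ends k x v hk
  obtain ⟨b1, b2, b3⟩ := h.ends l y v hl
  have hl' : s(v, y) ∈ es l := by
    rw [Sym2.eq_swap]
    exact hl
  have e1 : (gr es).Adj x v := ⟨a3, k, hk⟩
  have e2 : (gr es).Adj v y := ⟨b3.symm, l, hl'⟩
  refine ⟨SimpleGraph.Walk.cons e1 (SimpleGraph.Walk.cons e2 SimpleGraph.Walk.nil), ?_, ?_⟩
  · rw [SimpleGraph.Walk.cons_isPath_iff, SimpleGraph.Walk.cons_isPath_iff]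
    refine ⟨⟨SimpleGraph.Walk.IsPath.nil, ?_⟩, ?_⟩
    · simpa using b3.symm
    · simpa using ⟨a3, hxy⟩
  · intro f i j hij hj hi hj' m him hmj
    have hj2 : j ≤ 2 := hj
    have g0 : (SimpleGraph.Walk.cons e1
        (SimpleGraph.Walk.cons e2 SimpleGraph.Walk.nil)).getVert 0 = x := rfl
    have g1 : (SimpleGraph.Walk.cons e1
        (SimpleGraph.Walk.cons e2 SimpleGraph.Walk.nil)).getVert 1 = v := rfl
    have g2 : (SimpleGraph.Walk.cons e1
        (SimpleGraph.Walk.cons e2 SimpleGraph.Walk.nil)).getVert 2 = y := rfl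
    have hcases : (i = 0 ∧ j = 1) ∨ (i = 0 ∧ j = 2) ∨ (i = 1 ∧ j = 2) := by omega
    rcases hcases with ⟨rfl, rfl⟩ | ⟨rfl, rfl⟩ | ⟨rfl, rfl⟩
    · obtain rfl : m = 0 := by omega
      rw [g0] at hi
      rw [g1] at hj'
      rw [g0]
      show s(x, v) ∈ es f
      exact QAV_edge h hk hi hj'
    · rw [g0] at hi
      rw [g2] at hj'
      exact absurd hj' (hno f hi)
    · obtain rfl : m = 1 := by omega
      rw [g1] at hi
      rw [g2] at hj'
      rw [g1]
      show s(v, y) ∈ es f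
      exact QAV_edge h hl' hi hj'

end Pool.Agent.NR
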